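import Mathlib

/-!
# Orders of growth, generalized entropy and the hyperspace map (definitions for MP_2aac2f_an)
-/

namespace Pool.Agent.Lib.MP_2aac2f_an

open TopologicalSpace

/-- The set `𝒪` of non-decreasing sequences `a : {1, 2, 3, …} → [0, ∞)`. -/
structure Growth where
  /-- the sequence -/
  toFun : ℕ+ → NNReal
  /-- it is non-decreasing -/
  mono : Monotone toFun

/-- `a ≤ b` iff `a(n) ≤ C b(n)` for all `n` and some constant `C > 0`. -/
instance : Preorder Growth where
  le a b := ∃ C : NNReal, 0 < C ∧ ∀ n, a.toFun n ≤ C * b.toFun n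
  le_refl a := ⟨1, one_pos, fun n => by simp⟩
  le_trans a b c := by
    rintro ⟨C, hC, h⟩ ⟨D, hD, h'⟩
    refine ⟨C * D, mul_pos hC hD, fun n => (h n).trans ?_⟩
    rw [mul_assoc]
    exact mul_le_mul_of_nonneg_left (h' n) zero_le

/-- The partially ordered set `𝕆 = 𝒪 / ≈` of orders of growth, where `a ≈ b` iff `a ≤ b` and
`b ≤ a`, that is, `c a(n) ≤ b(n) ≤ C a(n)` for some constants `0 < c ≤ C`. -/
abbrev GrowthClass : Type := Antisymmetrization Growth (· ≤ ·)

/-- The class `[a]` of a sequence, as an element of the Dedekind-MacNeille completion of `𝕆`. -/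
def cls (a : Growth) : DedekindCut GrowthClass :=
  DedekindCut.principal (toAntisymmetrization (· ≤ ·) a)

/-- The sequence `a(n) = n`. -/
def linear : Growth := ⟨fun n => ((n : ℕ) : NNReal), fun a b h => by
  have : (a : ℕ) ≤ (b : ℕ) := h
  exact Nat.cast_le.mpr this⟩

section Entropy

variable {X : Type*} [MetricSpace X]

/-- `Span(T, n, ε)`: the least cardinality of a set `E` such that every `x` has some `y ∈ E` with
`d(T^i x, T^i y) < ε` for all `0 ≤ i < n`. -/
noncomputable def Span (T : X → X) (n : ℕ) (ε : ℝ) : ℕ :=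
  sInf {k | ∃ E : Finset X, E.card = k ∧ ∀ x, ∃ y ∈ E, ∀ i < n, dist (T^[i] x) (T^[i] y) < ε}

theorem span_set_nonempty [CompactSpace X] {T : X → X} (hT : Continuous T) (n : ℕ) {ε : ℝ}
    (hε : 0 < ε) :
    {k | ∃ E : Finset X, E.card = k ∧
      ∀ x, ∃ y ∈ E, ∀ i < n, dist (T^[i] x) (T^[i] y) < ε}.Nonempty := by
  have hopen : ∀ y : X, IsOpen {x : X | ∀ i < n, dist (T^[i] x) (T^[i] y) < ε} := by
    intro y
    have : {x : X | ∀ i < n, dist (T^[i] x) (T^[i] y) < ε} =
        ⋂ i ∈ Finset.range n, {x : X | dist (T^[i] x) (T^[i] y) < ε} := by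
      ext x; simp
    rw [this]
    exact isOpen_biInter_finset fun i _ =>
      isOpen_lt ((hT.iterate i).dist continuous_const) continuous_const
  obtain ⟨t, ht⟩ := isCompact_univ.elim_finite_subcover
    (fun y : X => {x : X | ∀ i < n, dist (T^[i] x) (T^[i] y) < ε}) hopen
    (fun x _ => Set.mem_iUnion.mpr ⟨x, fun i _ => by simpa using hε⟩)
  refine ⟨t.card, t, rfl, fun x => ?_⟩
  have := ht (Set.mem_univ x)
  simp only [Set.mem_iUnion, exists_prop] at this
  exact this

theorem span_mono [CompactSpace X] {T : X → X} (hT : Continuous T) {ε : ℝ} (hε : 0 < ε)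
    {m n : ℕ} (h : m ≤ n) : Span T m ε ≤ Span T n ε := by
  obtain ⟨E, hE, hcov⟩ := Nat.sInf_mem (span_set_nonempty hT n hε)
  refine Nat.sInf_le ⟨E, hE, fun x => ?_⟩
  obtain ⟨y, hy, hxy⟩ := hcov x
  exact ⟨y, hy, fun i hi => hxy i (lt_of_lt_of_le hi h)⟩

/-- The non-decreasing sequence `n ↦ Span(T, n, ε)`. -/
noncomputable def spanGrowth [CompactSpace X] (T : X → X) (hT : Continuous T) (ε : ℝ)
    (hε : 0 < ε) : Growth :=
  ⟨fun n => (Span T n ε : NNReal), fun a b h => by
    have : (a : ℕ) ≤ (b : ℕ) := h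
    exact Nat.cast_le.mpr (span_mono hT hε this)⟩

/-- The generalized entropy `o(T) = sup {[Span(T, n, ε)] : ε > 0}` in the Dedekind-MacNeille
completion of `𝕆`. -/
noncomputable def genEntropy [CompactSpace X] (T : X → X) (hT : Continuous T) :
    DedekindCut GrowthClass :=
  sSup {c | ∃ (ε : ℝ) (hε : 0 < ε), c = cls (spanGrowth T hT ε hε)}

/-- The induced map `W ↦ T(W)` on the hyperspace `𝒦(X)` of nonempty compact subsets of `X`,
which carries the Hausdorff metric. -/
def hyperMap (T : X → X) (hT : Continuous T) : NonemptyCompacts X → NonemptyCompacts X :=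
  fun W => W.map T hT

end Entropy

end Pool.Agent.Lib.MP_2aac2f_an
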