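import Pool.Agent.Lib.MP_2aac2f_an.Sturm

/-!
# Generalized entropy of the Sturmian shift and entropy of its hyperspace map
-/

namespace Pool.Agent.Lib.MP_2aac2f_an

open Finset TopologicalSpace

variable {α : ℝ}

/-- The mechanical word as a point of the Sturmian subshift. -/
noncomputable def ptS (h0 : 0 < α) (h1 : α < 1) (θ : ℝ) : Sturm α := ⟨pt α θ, pt_mem h0 h1 θ⟩

theorem ptS_val (h0 : 0 < α) (h1 : α < 1) (θ : ℝ) : (ptS h0 h1 θ).1 = pt α θ := rfl

/-! ### Linear growth of the Sturmian shift -/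

theorem dist_iterate_le {n L : ℕ} {x y : Sturm α} (h : ∀ l < n + L, x.1 l = y.1 l) :
    ∀ i < n, dist ((shift α)^[i] x) ((shift α)^[i] y) ≤ (1 / 2 : ℝ) ^ L := by
  intro i hi
  apply dist_le_of_agree
  intro l hl
  rw [shift_iterate, shift_iterate]
  exact h _ (by omega)

theorem span_upper (hα : Irrational α) (h0 : 0 < α) (h1 : α < 1) {ε : ℝ} (hε : 0 < ε) :
    ∃ C : ℕ, 0 < C ∧ ∀ n ≥ 1, Span (shift α) n ε ≤ C * n := by
  classical
  obtain ⟨L, hL⟩ : ∃ L : ℕ, (1 / 2 : ℝ) ^ L < ε :=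
    exists_pow_lt_of_lt_one hε (by norm_num)
  refine ⟨L + 2, by omega, fun n hn => ?_⟩
  let E : Finset (Sturm α) := (range (n + L + 1)).image
    (fun m : ℕ => ptS h0 h1 (⌈(m : ℝ) * α⌉ - m * α))
  have h2 : Span (shift α) n ε ≤ E.card := by
    refine Nat.sInf_le ⟨E, rfl, fun x => ?_⟩
    obtain ⟨m, hm, hx⟩ := exists_pt hα h0 h1 x.2 (n + L)
    refine ⟨ptS h0 h1 (⌈(m : ℝ) * α⌉ - m * α), ?_, ?_⟩
    · exact mem_image.mpr ⟨m, by simp; omega, rfl⟩
    · intro i hi
      exact lt_of_le_of_lt (dist_iterate_le hx i hi) hL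
  have h3 : E.card ≤ n + L + 1 := card_image_le.trans (by simp)
  have h4 : n + L + 1 ≤ (L + 2) * n := by nlinarith
  omega

theorem span_lower (hα : Irrational α) (h0 : 0 < α) (h1 : α < 1) (n : ℕ) :
    n ≤ Span (shift α) n 1 := by
  classical
  obtain ⟨E, hE, hcov⟩ := Nat.sInf_mem (span_set_nonempty (continuous_shift α) n one_pos)
  have hcov' : ∀ m : ℕ, ∃ y ∈ E, ∀ l < n, pt α (⌈(m : ℝ) * α⌉ - m * α) l = y.1 l := by
    intro m
    obtain ⟨y, hy, hxy⟩ := hcov (ptS h0 h1 (⌈(m : ℝ) * α⌉ - m * α))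
    refine ⟨y, hy, fun l hl => ?_⟩
    have := agree_of_dist_lt (hxy l hl)
    rw [shift_iterate, shift_iterate, ptS_val] at this
    simpa using this
  choose f hf hfl using hcov'
  have hinj : Set.InjOn f (range (n + 1) : Finset ℕ) := by
    intro a ha b hb hab
    have ha' : a ≤ n := by simpa [Nat.lt_succ_iff] using ha
    have hb' : b ≤ n := by simpa [Nat.lt_succ_iff] using hb
    refine pt_injOn hα h0 h1 ha' hb' fun l hl => ?_
    rw [hfl a l hl, hfl b l hl, hab]
  have h2 := card_le_card_of_injOn f (fun a _ => hf a) hinj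
  rw [card_range] at h2
  have h3 : E.card = Span (shift α) n 1 := hE
  omega

/-- The Sturmian shift has linear order of growth: `o(σ) = [n]`. -/
theorem genEntropy_sturm (hα : Irrational α) (h0 : 0 < α) (h1 : α < 1) :
    genEntropy (shift α) (continuous_shift α) = cls linear := by
  apply le_antisymm
  · apply sSup_le
    rintro c ⟨ε, hε, rfl⟩
    rw [cls, cls, DedekindCut.principal_le_principal]
    obtain ⟨C, hC, h⟩ := span_upper hα h0 h1 hε
    refine toAntisymmetrization_le_toAntisymmetrization_iff.mpr ⟨C, by exact_mod_cast hC, ?_⟩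
    intro n
    have := h n n.pos
    show ((Span (shift α) n ε : ℕ) : NNReal) ≤ (C : NNReal) * ((n : ℕ) : NNReal)
    exact_mod_cast this
  · have h2 : cls (spanGrowth (shift α) (continuous_shift α) 1 one_pos) ≤
        genEntropy (shift α) (continuous_shift α) := le_sSup ⟨1, one_pos, rfl⟩
    refine le_trans ?_ h2
    rw [cls, cls, DedekindCut.principal_le_principal]
    refine toAntisymmetrization_le_toAntisymmetrization_iff.mpr ⟨1, one_pos, ?_⟩
    intro n
    have := span_lower hα h0 h1 n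
    show ((n : ℕ) : NNReal) ≤ 1 * ((Span (shift α) n 1 : ℕ) : NNReal)
    rw [one_mul]
    exact_mod_cast this

/-! ### Families with private points are bounded -/

theorem match_iff {L : ℕ} {u : Fin L → Bool} {t₀ a b : ℝ}
    (hu : ∀ l : Fin L, pt α t₀ l = u l) (ha0 : 0 ≤ a) (hb1 : b ≤ 1)
    (hab : ∀ t, 0 ≤ t → t < 1 → ((∀ l < L, pt α t l = pt α t₀ l) ↔ (a ≤ t ∧ t < b)))
    (θ : ℝ) (j : ℕ) :
    (∀ l : Fin L, pt α θ (j + l) = u l) ↔
      ∃ m : ℤ, a ≤ (j : ℝ) * α + θ - m ∧ (j : ℝ) * α + θ - m < b := by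
  have h2 : (∀ l : Fin L, pt α θ (j + l) = u l) ↔
      ∀ l < L, pt α (Int.fract ((j : ℝ) * α + θ)) l = pt α t₀ l := by
    constructor
    · intro h l hl
      rw [← Int.self_sub_floor, pt_sub_int, ← pt_shift, h ⟨l, hl⟩, ← hu ⟨l, hl⟩]
    · intro h l
      have := h l l.2
      rw [← Int.self_sub_floor, pt_sub_int, ← pt_shift, hu l] at this
      exact this
  rw [h2, hab _ (Int.fract_nonneg _) (Int.fract_lt_one _)]
  constructor
  · intro h
    exact ⟨⌊(j : ℝ) * α + θ⌋, by rwa [Int.self_sub_floor]⟩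
  · rintro ⟨m, hm1, hm2⟩
    have hfl : ⌊(j : ℝ) * α + θ⌋ = m := by
      rw [Int.floor_eq_iff]
      constructor <;> linarith
    rw [← Int.self_sub_floor, hfl]
    exact ⟨hm1, hm2⟩

theorem private_bound (hα : Irrational α) (h0 : 0 < α) (h1 : α < 1) (L : ℕ) (u : Fin L → Bool) :
    ∃ d : ℕ, ∀ (N : ℕ) (S : Finset (Fin N)) (p : Fin N → Sturm α),
      (∀ i ∈ S, ∀ j ∈ S, ((∀ l : Fin L, (p i).1 (j + l) = u l) ↔ j = i)) → S.card ≤ d := by
  classical
  by_cases hu : ∃ t₀ : ℝ, (0 ≤ t₀ ∧ t₀ < 1) ∧ ∀ l : Fin L, pt α t₀ l = u l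
  · obtain ⟨t₀, ⟨ht0, ht1⟩, hu⟩ := hu
    obtain ⟨a, b, hab, ha0, hb1, hiff⟩ := exists_interval h0 h1 L ht0 ht1
    obtain ⟨K, hK⟩ := exists_nat_one_div_lt (sub_pos.mpr hab)
    refine ⟨(K + 1) * 2, fun N S p hp => ?_⟩
    by_contra hcard
    push Not at hcard
    -- replace the points by mechanical words
    have hex : ∀ i, ∃ θ : ℝ, (0 ≤ θ ∧ θ < 1) ∧ ∀ l < N + L, (p i).1 l = pt α θ l := by
      intro i
      obtain ⟨m, -, hm⟩ := exists_pt hα h0 h1 (p i).2 (N + L)
      exact ⟨_, intercept_mem m, hm⟩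
    choose θ hθ hpθ using hex
    have hmatch : ∀ i ∈ S, ∀ j ∈ S,
        ((∃ m : ℤ, a ≤ ((j : ℕ) : ℝ) * α + θ i - m ∧ ((j : ℕ) : ℝ) * α + θ i - m < b) ↔
          j = i) := by
      intro i hi j hj
      rw [← hp i hi j hj, ← match_iff hu ha0 hb1 hiff (θ i) j]
      refine forall_congr' fun l => ?_
      rw [hpθ i (j + l) (by have := j.2; have := l.2; omega)]
    -- pigeonhole
    have hKpos : (0 : ℝ) < (K : ℝ) + 1 := by positivity
    obtain ⟨y, -, hy⟩ := exists_lt_card_fiber_of_mul_lt_card_of_maps_to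
      (s := S) (t := range (K + 1)) (f := fun i => ⌊((K : ℝ) + 1) * θ i⌋₊) (n := 2)
      (fun i _ => by
        rw [mem_range, Nat.floor_lt (mul_nonneg hKpos.le (hθ i).1)]
        push_cast
        nlinarith [(hθ i).2])
      (by rw [card_range]; exact hcard)
    set F := S.filter (fun i => ⌊((K : ℝ) + 1) * θ i⌋₊ = y) with hF
    have hclose : ∀ i ∈ F, ∀ k ∈ F, θ k - θ i < b - a := by
      intro i hi k hk
      rw [hF, mem_filter] at hi hk
      have e1 := Nat.floor_le (mul_nonneg hKpos.le (hθ i).1)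
      have e2 := Nat.lt_floor_add_one (((K : ℝ) + 1) * θ k)
      rw [hi.2] at e1
      rw [hk.2] at e2
      have e3 : ((K : ℝ) + 1) * (θ k - θ i) < 1 := by nlinarith
      have e4 : θ k - θ i < 1 / ((K : ℝ) + 1) := by
        rw [lt_div_iff₀ hKpos]; linarith
      linarith
    obtain ⟨i, hiF, himin⟩ := exists_min_image F θ (card_pos.mp (by omega))
    have hc1 : (F.erase i).card = F.card - 1 := card_erase_of_mem hiF
    obtain ⟨k, hkF, hkmax⟩ := exists_max_image (F.erase i) θ (card_pos.mp (by omega))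
    have hc2 : ((F.erase i).erase k).card = F.card - 2 := by
      rw [card_erase_of_mem hkF, hc1]; omega
    obtain ⟨j, hj⟩ := card_pos.mp (show 0 < ((F.erase i).erase k).card by omega)
    have hjk : j ≠ k := (mem_erase.mp hj).1
    have hj2 : j ∈ F.erase i := (mem_erase.mp hj).2
    have hji : j ≠ i := (mem_erase.mp hj2).1
    have hjF : j ∈ F := (mem_erase.mp hj2).2
    have hkF' : k ∈ F := (mem_erase.mp hkF).2
    have hiS : i ∈ S := (mem_filter.mp hiF).1
    have hjS : j ∈ S := (mem_filter.mp hjF).1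
    have hkS : k ∈ S := (mem_filter.mp hkF').1
    have hij : θ i ≤ θ j := himin j hjF
    have hjk' : θ j ≤ θ k := hkmax j hj2
    have hik := hclose i hiF k hkF'
    obtain ⟨m, hm1, hm2⟩ := (hmatch j hjS j hjS).mpr rfl
    by_cases hc : a ≤ ((j : ℕ) : ℝ) * α + θ i - m
    · exact hji ((hmatch i hiS j hjS).mp ⟨m, hc, by linarith⟩)
    · push Not at hc
      exact hjk ((hmatch k hkS j hjS).mp ⟨m, by linarith, by linarith⟩)
  · refine ⟨0, fun N S p hp => ?_⟩
    rw [Nat.le_zero, card_eq_zero, eq_empty_iff_forall_notMem]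
    intro i hi
    apply hu
    obtain ⟨m, -, hm⟩ := exists_pt hα h0 h1 (p i).2 (N + L)
    have h2 := (hp i hi i hi).mpr rfl
    set θ : ℝ := (⌈(m : ℝ) * α⌉ : ℝ) - m * α with hθ
    refine ⟨Int.fract (((i : ℕ) : ℝ) * α + θ), ⟨Int.fract_nonneg _, Int.fract_lt_one _⟩, ?_⟩
    intro l
    rw [← Int.self_sub_floor, pt_sub_int, ← pt_shift,
      ← hm (i + l) (by have := i.2; have := l.2; omega)]
    exact h2 l

/-! ### Counting hitting patterns -/

open Classical in
/-- The set of times `i < n` at which `σ^i W` meets the cylinder of `u`. -/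
noncomputable def pat (n : ℕ) {L : ℕ} (u : Fin L → Bool) (W : NonemptyCompacts (Sturm α)) :
    Finset (Fin n) :=
  univ.filter (fun i => ∃ x ∈ W, ∀ l : Fin L, x.1 (i + l) = u l)

open Classical in
/-- The family of all hitting patterns of the cylinder of `u`. -/
noncomputable def patFam (α : ℝ) (n : ℕ) {L : ℕ} (u : Fin L → Bool) :
    Finset (Finset (Fin n)) :=
  univ.filter (fun s => ∃ W : NonemptyCompacts (Sturm α), pat n u W = s)

theorem card_patFam (hα : Irrational α) (h0 : 0 < α) (h1 : α < 1) (L : ℕ) (u : Fin L → Bool) :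
    ∃ d : ℕ, ∀ n, (patFam α n u).card ≤ (d + 1) * (n + 1) ^ d := by
  classical
  obtain ⟨d, hd⟩ := private_bound hα h0 h1 L u
  refine ⟨d, fun n => ?_⟩
  have hvc : (patFam α n u).vcDim ≤ d := by
    unfold vcDim
    refine Finset.sup_le fun s hs => ?_
    rw [mem_shatterer] at hs
    have hex : ∀ i : Fin n, ∃ x : Sturm α, i ∈ s →
        ((∀ l : Fin L, x.1 (i + l) = u l) ∧
          ∀ j ∈ s, (∀ l : Fin L, x.1 (j + l) = u l) → j = i) := by
      intro i
      by_cases hi : i ∈ s
      · obtain ⟨t, ht, hst⟩ := hs.exists_inter_eq_singleton hi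
        obtain ⟨-, W, rfl⟩ := mem_filter.mp ht
        have hit : i ∈ pat n u W := by
          have : i ∈ s ∩ pat n u W := by rw [hst]; simp
          exact (mem_inter.mp this).2
        obtain ⟨-, x, hxW, hx⟩ := mem_filter.mp hit
        refine ⟨x, fun _ => ⟨hx, fun j hj hxj => ?_⟩⟩
        have hjt : j ∈ pat n u W := mem_filter.mpr ⟨mem_univ _, x, hxW, hxj⟩
        have : j ∈ s ∩ pat n u W := mem_inter.mpr ⟨hj, hjt⟩
        rw [hst] at this
        simpa using this
      · exact ⟨ptS h0 h1 0, fun h => absurd h hi⟩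
    choose p hp using hex
    refine hd n s p fun i hi j hj => ⟨fun h => (hp i hi).2 j hj h, ?_⟩
    rintro rfl
    exact (hp j hi).1
  calc (patFam α n u).card ≤ (patFam α n u).shatterer.card := card_le_card_shatterer _
    _ ≤ ∑ k ∈ Iic (patFam α n u).vcDim, (Fintype.card (Fin n)).choose k :=
        card_shatterer_le_sum_vcDim
    _ ≤ ∑ k ∈ Iic d, (Fintype.card (Fin n)).choose k :=
        sum_le_sum_of_subset (Iic_subset_Iic.mpr hvc)
    _ ≤ ∑ k ∈ Iic d, (n + 1) ^ d := by
        refine sum_le_sum fun k hk => ?_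
        rw [Fintype.card_fin]
        calc n.choose k ≤ n ^ k := Nat.choose_le_pow n k
          _ ≤ (n + 1) ^ k := Nat.pow_le_pow_left (by omega) k
          _ ≤ (n + 1) ^ d := Nat.pow_le_pow_right (by omega) (mem_Iic.mp hk)
    _ = (d + 1) * (n + 1) ^ d := by simp

theorem coe_hyperMap_iterate {X : Type*} [MetricSpace X] (T : X → X) (hT : Continuous T) (i : ℕ)
    (W : NonemptyCompacts X) : ((hyperMap T hT)^[i] W : Set X) = T^[i] '' (W : Set X) := by
  induction i with
  | zero => simp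
  | succ i ih =>
    rw [Function.iterate_succ_apply']
    show T '' (((hyperMap T hT)^[i] W : NonemptyCompacts X) : Set X) = _
    rw [ih, ← Set.image_comp, ← Function.iterate_succ']

/-- Sets with the same hitting patterns are close along their orbits. -/
theorem dist_of_pat_eq {n L : ℕ} {W W' : NonemptyCompacts (Sturm α)}
    (h : ∀ u : Fin L → Bool, pat n u W = pat n u W') :
    ∀ i < n, dist ((hyperMap (shift α) (continuous_shift α))^[i] W)
      ((hyperMap (shift α) (continuous_shift α))^[i] W') ≤ (1 / 2 : ℝ) ^ L := by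
  classical
  intro i hi
  have key : ∀ V V' : NonemptyCompacts (Sturm α),
      (∀ u : Fin L → Bool, pat n u V = pat n u V') →
      ∀ z ∈ (shift α)^[i] '' (V : Set (Sturm α)), ∃ z' ∈ (shift α)^[i] '' (V' : Set (Sturm α)),
        dist z z' ≤ (1 / 2 : ℝ) ^ L := by
    rintro V V' hV z ⟨x, hx, rfl⟩
    have h1 : (⟨i, hi⟩ : Fin n) ∈ pat n (fun l : Fin L => x.1 (i + l)) V :=
      mem_filter.mpr ⟨mem_univ _, x, hx, fun l => rfl⟩
    rw [hV] at h1
    obtain ⟨-, x', hx', hxx⟩ := mem_filter.mp h1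
    refine ⟨_, ⟨x', hx', rfl⟩, dist_le_of_agree fun l hl => ?_⟩
    rw [shift_iterate, shift_iterate]
    exact (hxx ⟨l, hl⟩).symm
  rw [Metric.NonemptyCompacts.dist_eq, coe_hyperMap_iterate, coe_hyperMap_iterate]
  exact Metric.hausdorffDist_le_of_mem_dist (by positivity) (key W W' h)
    (key W' W fun u => (h u).symm)

open Dynamics in
theorem coverMincard_le (hα : Irrational α) (h0 : 0 < α) (h1 : α < 1)
    {U : SetRel (NonemptyCompacts (Sturm α)) (NonemptyCompacts (Sturm α))}
    (hU : U ∈ uniformity (NonemptyCompacts (Sturm α))) :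
    ∃ C D : ℕ, ∀ n, coverMincard (hyperMap (shift α) (continuous_shift α)) Set.univ U n ≤
      ((C * (n + 1) ^ D : ℕ) : ℕ∞) := by
  classical
  obtain ⟨ε, hε, hεU⟩ := Metric.mem_uniformity_dist.mp hU
  obtain ⟨L, hL⟩ : ∃ L : ℕ, (1 / 2 : ℝ) ^ L < ε :=
    exists_pow_lt_of_lt_one hε (by norm_num)
  choose d hd using fun u : Fin L → Bool => card_patFam hα h0 h1 L u
  refine ⟨∏ u, (d u + 1), ∑ u, d u, fun n => ?_⟩
  -- the set of names
  let name : NonemptyCompacts (Sturm α) → (Fin L → Bool) → Finset (Fin n) :=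
    fun W u => pat n u W
  let R : Finset ((Fin L → Bool) → Finset (Fin n)) := univ.filter (fun f => ∃ W, name W = f)
  have hR : R.card ≤ ∏ u : Fin L → Bool, (patFam α n u).card := by
    rw [← Fintype.card_piFinset]
    refine card_le_card fun f hf => ?_
    obtain ⟨-, W, rfl⟩ := mem_filter.mp hf
    rw [Fintype.mem_piFinset]
    exact fun u => mem_filter.mpr ⟨mem_univ _, W, rfl⟩
  have hrep : ∀ f : (Fin L → Bool) → Finset (Fin n), ∃ W : NonemptyCompacts (Sturm α),
      f ∈ R → name W = f := by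
    intro f
    by_cases hf : f ∈ R
    · obtain ⟨-, W, hW⟩ := mem_filter.mp hf
      exact ⟨W, fun _ => hW⟩
    · exact ⟨{ptS h0 h1 0}, fun h => absurd h hf⟩
  choose rep hrep using hrep
  have hcov : IsDynCoverOf (hyperMap (shift α) (continuous_shift α)) Set.univ U n
      (R.image rep : Finset (NonemptyCompacts (Sturm α))) := by
    intro W _
    have hWR : name W ∈ R := mem_filter.mpr ⟨mem_univ _, W, rfl⟩
    refine ⟨rep (name W), by exact_mod_cast mem_image_of_mem rep hWR, ?_⟩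
    rw [mem_dynEntourage]
    intro k hk
    apply hεU
    refine lt_of_le_of_lt (dist_of_pat_eq (L := L) (n := n) (fun u => ?_) k hk) hL
    exact (congrFun (hrep (name W) hWR) u).symm
  refine hcov.coverMincard_le_card.trans ?_
  have h2 : (R.image rep).card ≤ (∏ u, (d u + 1)) * (n + 1) ^ (∑ u, d u) :=
    calc (R.image rep).card ≤ R.card := card_image_le
      _ ≤ ∏ u : Fin L → Bool, (patFam α n u).card := hR
      _ ≤ ∏ u, ((d u + 1) * (n + 1) ^ d u) := prod_le_prod' fun u _ => hd u n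
      _ = (∏ u, (d u + 1)) * (n + 1) ^ (∑ u, d u) := by
          rw [prod_mul_distrib, prod_pow_eq_pow_sum]
  exact_mod_cast h2

open Dynamics ExpGrowth in
theorem expGrowthSup_poly (C D : ℕ) :
    expGrowthSup (fun n => ((C * (n + 1) ^ D : ℕ) : ENNReal)) ≤ 0 := by
  rw [expGrowthSup_le_iff]
  intro b hb
  obtain ⟨δ, hδ0, hδb⟩ := EReal.lt_iff_exists_real_btwn.mp hb
  have hδ : 0 < δ := by exact_mod_cast hδ0
  have hreal : ∀ᶠ n : ℕ in Filter.atTop, (C : ℝ) * ((n : ℝ) + 1) ^ D ≤ Real.exp (δ * n) := by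
    have h1 : Filter.Tendsto (fun x : ℝ => x ^ D * Real.exp (-δ * x)) Filter.atTop (nhds 0) := by
      have := Real.tendsto_pow_mul_exp_neg_atTop_nhds_zero D
      have h2 : Filter.Tendsto (fun x : ℝ => δ * x) Filter.atTop Filter.atTop :=
        Filter.tendsto_id.const_mul_atTop hδ
      have h3 := (this.comp h2).const_mul (δ⁻¹ ^ D)
      rw [mul_zero] at h3
      refine h3.congr fun x => ?_
      simp only [Function.comp, mul_pow]
      rw [← mul_assoc, ← mul_assoc, ← mul_pow, inv_mul_cancel₀ hδ.ne', one_pow, one_mul]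
      congr 2; ring
    have h4 : Filter.Tendsto (fun n : ℕ => ((n : ℝ) + 1)) Filter.atTop Filter.atTop :=
      Filter.tendsto_atTop_add_const_right _ _ tendsto_natCast_atTop_atTop
    have h5 := (h1.comp h4).const_mul (C * Real.exp δ)
    rw [mul_zero] at h5
    filter_upwards [h5.eventually (gt_mem_nhds one_pos)] with n hn
    simp only [Function.comp] at hn
    have h6 : Real.exp (-δ * ((n : ℝ) + 1)) = Real.exp (-(δ * n)) * Real.exp (-δ) := by
      rw [← Real.exp_add]; congr 1; ring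
    have h7 : (C : ℝ) * Real.exp δ * (((n : ℝ) + 1) ^ D * Real.exp (-δ * ((n : ℝ) + 1))) =
        (C : ℝ) * ((n : ℝ) + 1) ^ D * Real.exp (-(δ * n)) := by
      rw [h6]
      have : Real.exp δ * Real.exp (-δ) = 1 := by rw [← Real.exp_add]; simp
      calc (C : ℝ) * Real.exp δ * (((n : ℝ) + 1) ^ D * (Real.exp (-(δ * n)) * Real.exp (-δ)))
          = (C : ℝ) * ((n : ℝ) + 1) ^ D * Real.exp (-(δ * n)) *
            (Real.exp δ * Real.exp (-δ)) := by ring
        _ = _ := by rw [this, mul_one]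
    rw [h7, Real.exp_neg, ← div_eq_mul_inv, div_lt_one (Real.exp_pos _)] at hn
    exact hn.le
  filter_upwards [hreal] with n hn
  have h1 : ((C * (n + 1) ^ D : ℕ) : ENNReal) ≤ ENNReal.ofReal (Real.exp (δ * n)) := by
    rw [← ENNReal.ofReal_natCast]
    apply ENNReal.ofReal_le_ofReal
    push_cast
    exact hn
  refine h1.trans ?_
  have h2 : ENNReal.ofReal (Real.exp (δ * n)) = EReal.exp ((δ : EReal) * (n : EReal)) := by
    rw [show (n : EReal) = (((n : ℕ) : ℝ) : EReal) by norm_cast, ← EReal.coe_mul, EReal.exp_coe]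
  rw [h2]
  gcongr

open Dynamics in
/-- The hyperspace map of the Sturmian shift has zero entropy. -/
theorem entropy_hyper_sturm (hα : Irrational α) (h0 : 0 < α) (h1 : α < 1) :
    coverEntropy (hyperMap (shift α) (continuous_shift α)) Set.univ = 0 := by
  apply le_antisymm
  · unfold coverEntropy
    refine iSup₂_le fun U hU => ?_
    obtain ⟨C, D, h⟩ := coverMincard_le hα h0 h1 hU
    refine le_trans ?_ (expGrowthSup_poly C D)
    unfold coverEntropyEntourage
    refine ExpGrowth.expGrowthSup_monotone fun n => ?_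
    have := ENat.toENNReal_mono (h n)
    simpa using this
  · exact coverEntropy_nonneg _ ⟨{ptS h0 h1 0}, trivial⟩

end Pool.Agent.Lib.MP_2aac2f_an
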