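import Pool.Agent.Lib.MP_2aac2f_an.Defs

/-!
# The Sturmian subshift of slope `α`
-/

namespace Pool.Agent.Lib.MP_2aac2f_an

open Finset

/-- The number of `true`s among the first `j` letters. -/
def psum (x : ℕ → Bool) (j : ℕ) : ℤ := ∑ l ∈ range j, ((x l).toNat : ℤ)

/-- The discrepancy of the first `j` letters. -/
noncomputable def disc (α : ℝ) (x : ℕ → Bool) (j : ℕ) : ℝ := (psum x j : ℝ) - j * α

/-- The Sturmian subshift of slope `α` (as a set): every factor `w` has a number of `true`s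
within distance one of `|w| α`. -/
def SturmSet (α : ℝ) : Set (ℕ → Bool) := {x | ∀ i j, disc α x j - disc α x i ≤ 1}

theorem psum_zero (x : ℕ → Bool) : psum x 0 = 0 := by simp [psum]

theorem psum_succ (x : ℕ → Bool) (j : ℕ) : psum x (j + 1) = psum x j + ((x j).toNat : ℤ) := by
  simp [psum, sum_range_succ]

theorem disc_zero (α : ℝ) (x : ℕ → Bool) : disc α x 0 = 0 := by simp [disc, psum_zero]

theorem psum_shift (x : ℕ → Bool) (j : ℕ) :
    psum (fun l => x (l + 1)) j = psum x (j + 1) - psum x 1 := by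
  simp [psum, sum_range_succ']

theorem disc_shift (α : ℝ) (x : ℕ → Bool) (j : ℕ) :
    disc α (fun l => x (l + 1)) j = disc α x (j + 1) - disc α x 1 := by
  simp only [disc, psum_shift]
  push_cast
  ring

theorem shift_mem {α : ℝ} {x : ℕ → Bool} (hx : x ∈ SturmSet α) :
    (fun l => x (l + 1)) ∈ SturmSet α := by
  intro i j
  rw [disc_shift, disc_shift]
  have := hx (i + 1) (j + 1)
  linarith

/-- The Sturmian subshift of slope `α`. -/
def Sturm (α : ℝ) : Type := {x : ℕ → Bool // x ∈ SturmSet α}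

noncomputable instance instMetricSturm (α : ℝ) : MetricSpace (Sturm α) :=
  MetricSpace.induced (fun x : Sturm α => x.1) Subtype.val_injective
    (PiNat.metricSpace (E := fun _ => Bool))

theorem dist_le_of_agree {α : ℝ} {x y : Sturm α} {N : ℕ} (h : ∀ l < N, x.1 l = y.1 l) :
    dist x y ≤ (1 / 2 : ℝ) ^ N := by
  have h1 : x.1 ∈ PiNat.cylinder y.1 N := PiNat.mem_cylinder_iff.mpr h
  exact PiNat.mem_cylinder_iff_dist_le.mp h1

theorem agree_of_dist_lt {α : ℝ} {x y : Sturm α} (h : dist x y < 1) : x.1 0 = y.1 0 := by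
  refine PiNat.apply_eq_of_dist_lt (x := x.1) (y := y.1) (n := 0) ?_ le_rfl
  simpa using! h

theorem continuous_val (α : ℝ) : Continuous (fun x : Sturm α => (x.1 : ℕ → Bool)) :=
  continuous_induced_dom

theorem continuous_coord (α : ℝ) (l : ℕ) : Continuous (fun x : Sturm α => x.1 l) :=
  (continuous_apply l).comp (continuous_val α)

theorem isClosed_sturmSet (α : ℝ) : IsClosed (SturmSet α) := by
  have : SturmSet α = ⋂ (i : ℕ) (j : ℕ), {x | disc α x j - disc α x i ≤ 1} := by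
    ext x; simp [SturmSet]
  rw [this]
  have hc : ∀ j, Continuous (fun x : ℕ → Bool => disc α x j) := by
    intro j
    unfold disc psum
    have h1 : ∀ l : ℕ, Continuous (fun x : ℕ → Bool => (((x l).toNat : ℤ) : ℝ)) := by
      intro l
      exact (continuous_of_discreteTopology (f := fun b : Bool => ((b.toNat : ℤ) : ℝ))).comp
        (continuous_apply l)
    have h2 : Continuous (fun x : ℕ → Bool => ∑ l ∈ range j, (((x l).toNat : ℤ) : ℝ)) :=
      continuous_finsetSum _ fun l _ => h1 l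
    have h3 : (fun x : ℕ → Bool => ((∑ l ∈ range j, ((x l).toNat : ℤ) : ℤ) : ℝ) - j * α) =
        fun x : ℕ → Bool => (∑ l ∈ range j, (((x l).toNat : ℤ) : ℝ)) - j * α := by
      funext x; push_cast; rfl
    rw [h3]
    exact h2.sub continuous_const
  exact isClosed_iInter fun i => isClosed_iInter fun j =>
    isClosed_le ((hc j).sub (hc i)) continuous_const

instance instCompactSturm (α : ℝ) : CompactSpace (Sturm α) := by
  have h : IsCompact (SturmSet α) := (isClosed_sturmSet α).isCompact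
  have h2 : CompactSpace (SturmSet α) := isCompact_iff_compactSpace.mp h
  exact h2

/-- The shift on the Sturmian subshift. -/
def shift (α : ℝ) (x : Sturm α) : Sturm α := ⟨fun l => x.1 (l + 1), shift_mem x.2⟩

theorem continuous_shift (α : ℝ) : Continuous (shift α) := by
  refine continuous_induced_rng.2 ?_
  exact continuous_pi fun n => continuous_coord α (n + 1)

theorem shift_iterate (α : ℝ) (i : ℕ) (x : Sturm α) (l : ℕ) :
    ((shift α)^[i] x).1 l = x.1 (i + l) := by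
  induction i generalizing l with
  | zero => simp
  | succ i ih =>
    rw [Function.iterate_succ_apply']
    show ((shift α)^[i] x).1 (l + 1) = _
    rw [ih, show i + (l + 1) = i + 1 + l by omega]

/-! ### Mechanical words -/

/-- The (lower) mechanical word of slope `α` and intercept `θ`. -/
noncomputable def pt (α θ : ℝ) : ℕ → Bool :=
  fun l => decide (⌊((l + 1 : ℕ) : ℝ) * α + θ⌋ ≠ ⌊(l : ℝ) * α + θ⌋)

variable {α : ℝ}

theorem pt_toNat (h0 : 0 < α) (h1 : α < 1) (θ : ℝ) (l : ℕ) :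
    ((pt α θ l).toNat : ℤ) = ⌊((l + 1 : ℕ) : ℝ) * α + θ⌋ - ⌊(l : ℝ) * α + θ⌋ := by
  have e : ((l + 1 : ℕ) : ℝ) * α + θ = ((l : ℝ) * α + θ) + α := by push_cast; ring
  have hle : ⌊(l : ℝ) * α + θ⌋ ≤ ⌊((l + 1 : ℕ) : ℝ) * α + θ⌋ := by
    apply Int.floor_le_floor
    rw [e]; linarith
  have hlt : ⌊((l + 1 : ℕ) : ℝ) * α + θ⌋ ≤ ⌊(l : ℝ) * α + θ⌋ + 1 := by
    have : ⌊((l + 1 : ℕ) : ℝ) * α + θ⌋ < ⌊(l : ℝ) * α + θ⌋ + 2 := by
      rw [Int.floor_lt, e]
      push_cast
      have := Int.lt_floor_add_one ((l : ℝ) * α + θ)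
      linarith
    omega
  by_cases h : ⌊((l + 1 : ℕ) : ℝ) * α + θ⌋ = ⌊(l : ℝ) * α + θ⌋
  · simp only [pt, h]; simp
  · have h2 : pt α θ l = true := by simp only [pt]; simpa using h
    rw [h2]
    simp only [Bool.toNat_true]
    push_cast
    push_cast at h hle hlt
    omega

theorem psum_pt (h0 : 0 < α) (h1 : α < 1) (θ : ℝ) (j : ℕ) :
    psum (pt α θ) j = ⌊(j : ℝ) * α + θ⌋ - ⌊θ⌋ := by
  induction j with
  | zero => simp [psum_zero]
  | succ j ih =>
    rw [psum_succ, ih, pt_toNat h0 h1]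
    ring

theorem pt_mem (h0 : 0 < α) (h1 : α < 1) (θ : ℝ) : pt α θ ∈ SturmSet α := by
  intro i j
  have hd : ∀ k, disc α (pt α θ) k = Int.fract θ - Int.fract ((k : ℝ) * α + θ) := by
    intro k
    rw [disc, psum_pt h0 h1]
    push_cast
    have e1 := Int.self_sub_floor θ
    have e2 := Int.self_sub_floor ((k : ℝ) * α + θ)
    linarith
  rw [hd, hd]
  have := Int.fract_lt_one ((i : ℝ) * α + θ)
  have := Int.fract_nonneg ((j : ℝ) * α + θ)
  linarith

/-- Two words with the same partial sums up to `n` agree on the first `n` letters. -/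
theorem eq_of_psum_eq {x y : ℕ → Bool} {n : ℕ} (h : ∀ j ≤ n, psum x j = psum y j) :
    ∀ l < n, x l = y l := by
  intro l hl
  have h1 := h (l + 1) (by omega)
  rw [psum_succ, psum_succ, h l (by omega)] at h1
  have h2 : (x l).toNat = (y l).toNat := by omega
  revert h2
  cases x l <;> cases y l <;> simp

theorem psum_eq_of_eq {x y : ℕ → Bool} {n : ℕ} (h : ∀ l < n, x l = y l) :
    ∀ j ≤ n, psum x j = psum y j := by
  intro j hj
  unfold psum
  refine sum_congr rfl fun l hl => ?_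
  rw [h l (lt_of_lt_of_le (mem_range.mp hl) hj)]

theorem irr_ne (hα : Irrational α) {k : ℤ} {m m' : ℕ} (h : ((m : ℝ) - m') * α = k) : m = m' := by
  by_contra hne
  have h1 : Irrational (((m : ℤ) - (m' : ℤ) : ℤ) * α) :=
    hα.intCast_mul (by omega)
  apply h1.ne_int k
  rw [← h]
  push_cast
  ring

/-- Every prefix of a Sturmian word is a prefix of a mechanical word, with an intercept of the
form `⌈m α⌉ - m α`. -/
theorem exists_pt (hα : Irrational α) (h0 : 0 < α) (h1 : α < 1) {x : ℕ → Bool}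
    (hx : x ∈ SturmSet α) (n : ℕ) :
    ∃ m ≤ n, ∀ l < n, x l = pt α (⌈(m : ℝ) * α⌉ - m * α) l := by
  obtain ⟨m, hm, hmax⟩ := exists_max_image (range (n + 1)) (disc α x) ⟨0, by simp⟩
  have hmn : m ≤ n := by simpa [Nat.lt_succ_iff] using hm
  have hθ0 : 0 ≤ disc α x m := by
    have := hmax 0 (by simp)
    rwa [disc_zero] at this
  have hlt : ∀ j ≤ n, disc α x m < disc α x j + 1 := by
    intro j hj
    have h2 := hx j m
    rcases lt_or_eq_of_le h2 with h3 | h3
    · linarith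
    · exfalso
      simp only [disc] at h3
      have h4 : ((m : ℝ) - j) * α = ((psum x m - psum x j - 1 : ℤ) : ℝ) := by
        push_cast; linarith
      have h5 := irr_ne hα h4
      subst h5
      simp at h3
  have hθ1 : disc α x m < 1 := by
    have := hlt 0 (by omega)
    rwa [disc_zero, zero_add] at this
  have hceil : (⌈(m : ℝ) * α⌉ : ℤ) = psum x m := by
    rw [Int.ceil_eq_iff]
    simp only [disc] at hθ0 hθ1
    constructor <;> linarith
  refine ⟨m, hmn, ?_⟩
  rw [hceil]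
  set θ : ℝ := (psum x m : ℝ) - m * α with hθ
  have hθd : disc α x m = θ := rfl
  apply eq_of_psum_eq
  intro j hj
  rw [psum_pt h0 h1]
  have hf : ⌊(j : ℝ) * α + θ⌋ = psum x j := by
    rw [Int.floor_eq_iff]
    have h2 := hmax j (by simp; omega)
    have h3 := hlt j hj
    rw [hθd] at h2 h3
    simp only [disc] at h2 h3
    constructor <;> linarith
  have hf0 : ⌊θ⌋ = 0 := by
    rw [Int.floor_eq_zero_iff]
    exact ⟨hθd ▸ hθ0, hθd ▸ hθ1⟩
  rw [hf, hf0, sub_zero]

theorem intercept_mem (m : ℕ) :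
    0 ≤ (⌈(m : ℝ) * α⌉ : ℝ) - m * α ∧ (⌈(m : ℝ) * α⌉ : ℝ) - m * α < 1 := by
  have h1 := Int.le_ceil ((m : ℝ) * α)
  have h2 := Int.ceil_lt_add_one ((m : ℝ) * α)
  constructor <;> linarith

theorem floor_intercept (m : ℕ) : ⌊(⌈(m : ℝ) * α⌉ : ℝ) - m * α⌋ = 0 := by
  rw [Int.floor_eq_zero_iff]
  exact ⟨(intercept_mem m).1, (intercept_mem m).2⟩

/-- The `n + 1` special mechanical words have different prefixes of length `n`. -/
theorem pt_injOn (hα : Irrational α) (h0 : 0 < α) (h1 : α < 1) {n m m' : ℕ} (hm : m ≤ n)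
    (hm' : m' ≤ n)
    (h : ∀ l < n, pt α (⌈(m : ℝ) * α⌉ - m * α) l = pt α (⌈(m' : ℝ) * α⌉ - m' * α) l) :
    m = m' := by
  have hps := psum_eq_of_eq h
  have key : ∀ a b : ℕ, a ≤ n →
      (∀ j ≤ n, psum (pt α (⌈(a : ℝ) * α⌉ - a * α)) j = psum (pt α (⌈(b : ℝ) * α⌉ - b * α)) j) →
      (⌈(a : ℝ) * α⌉ : ℝ) - a * α ≤ (⌈(b : ℝ) * α⌉ : ℝ) - b * α := by
    intro a b ha hab
    have h2 := hab a ha
    rw [psum_pt h0 h1, psum_pt h0 h1, floor_intercept, floor_intercept, sub_zero, sub_zero] at h2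
    have h3 : (a : ℝ) * α + ((⌈(a : ℝ) * α⌉ : ℝ) - a * α) = ((⌈(a : ℝ) * α⌉ : ℤ) : ℝ) := by ring
    rw [h3, Int.floor_intCast] at h2
    have h4 := Int.floor_le ((a : ℝ) * α + ((⌈(b : ℝ) * α⌉ : ℝ) - b * α))
    rw [← h2] at h4
    linarith
  have e1 := key m m' hm hps
  have e2 := key m' m hm' (fun j hj => (hps j hj).symm)
  have e3 : ((m : ℝ) - m') * α = ((⌈(m : ℝ) * α⌉ - ⌈(m' : ℝ) * α⌉ : ℤ) : ℝ) := by
    push_cast; linarith
  exact irr_ne hα e3

/-- Shifting a mechanical word. -/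
theorem pt_shift (θ : ℝ) (j l : ℕ) : pt α θ (j + l) = pt α ((j : ℝ) * α + θ) l := by
  unfold pt
  have e1 : ((j + l + 1 : ℕ) : ℝ) * α + θ = ((l + 1 : ℕ) : ℝ) * α + ((j : ℝ) * α + θ) := by
    push_cast; ring
  have e2 : ((j + l : ℕ) : ℝ) * α + θ = (l : ℝ) * α + ((j : ℝ) * α + θ) := by
    push_cast; ring
  rw [e1, e2]

theorem pt_sub_int (θ : ℝ) (k : ℤ) (l : ℕ) : pt α (θ - k) l = pt α θ l := by
  unfold pt
  have e1 : ((l + 1 : ℕ) : ℝ) * α + (θ - k) = ((l + 1 : ℕ) : ℝ) * α + θ - k := by ring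
  have e2 : (l : ℝ) * α + (θ - k) = (l : ℝ) * α + θ - k := by ring
  rw [e1, e2, Int.floor_sub_intCast, Int.floor_sub_intCast]
  simp

/-- The set of intercepts in `[0, 1)` with a given prefix is a half-open interval. -/
theorem exists_interval (h0 : 0 < α) (h1 : α < 1) (L : ℕ) {t₀ : ℝ} (ht₀ : 0 ≤ t₀) (ht₁ : t₀ < 1) :
    ∃ a b : ℝ, a < b ∧ 0 ≤ a ∧ b ≤ 1 ∧
      ∀ t, 0 ≤ t → t < 1 → ((∀ l < L, pt α t l = pt α t₀ l) ↔ (a ≤ t ∧ t < b)) := by
  -- the constraints are `s_j - jα ≤ t < s_j + 1 - jα`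
  obtain ⟨p, hp, hpmax⟩ := exists_max_image (range (L + 1))
    (fun j => (⌊(j : ℝ) * α + t₀⌋ : ℝ) - j * α) ⟨0, by simp⟩
  obtain ⟨q, hq, hqmin⟩ := exists_min_image (range (L + 1))
    (fun j => (⌊(j : ℝ) * α + t₀⌋ : ℝ) + 1 - j * α) ⟨0, by simp⟩
  have hf0 : ⌊t₀⌋ = 0 := Int.floor_eq_zero_iff.mpr ⟨ht₀, ht₁⟩
  have hp0 := hpmax 0 (by simp)
  have hq0 := hqmin 0 (by simp)
  simp only [Nat.cast_zero, zero_mul, zero_add, hf0, Int.cast_zero, sub_zero] at hp0 hq0
  refine ⟨(⌊(p : ℝ) * α + t₀⌋ : ℝ) - p * α, (⌊(q : ℝ) * α + t₀⌋ : ℝ) + 1 - q * α, ?_, hp0, hq0, ?_⟩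
  · have e1 := Int.floor_le ((p : ℝ) * α + t₀)
    have e2 := Int.lt_floor_add_one ((q : ℝ) * α + t₀)
    linarith
  · intro t ht ht'
    have hft : ⌊t⌋ = 0 := Int.floor_eq_zero_iff.mpr ⟨ht, ht'⟩
    constructor
    · intro h
      have hps := psum_eq_of_eq h
      have hfl : ∀ j ≤ L, ⌊(j : ℝ) * α + t⌋ = ⌊(j : ℝ) * α + t₀⌋ := by
        intro j hj
        have := hps j hj
        rwa [psum_pt h0 h1, psum_pt h0 h1, hft, hf0, sub_zero, sub_zero] at this
      have e1 := Int.floor_le ((p : ℝ) * α + t)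
      have e2 := Int.lt_floor_add_one ((q : ℝ) * α + t)
      rw [hfl p (by simpa [Nat.lt_succ_iff] using hp)] at e1
      rw [hfl q (by simpa [Nat.lt_succ_iff] using hq)] at e2
      constructor <;> linarith
    · rintro ⟨ha, hb⟩
      apply eq_of_psum_eq
      intro j hj
      rw [psum_pt h0 h1, psum_pt h0 h1, hft, hf0, sub_zero, sub_zero, Int.floor_eq_iff]
      have e1 := hpmax j (by simp; omega)
      have e2 := hqmin j (by simp; omega)
      constructor <;> linarith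

end Pool.Agent.Lib.MP_2aac2f_an
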